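import Mathlib

/-!
Quadratic points on the cubic `X ^ 3 + Y ^ 3 + Z ^ 3 = 0` and exponents divisible by `3`.
-/

namespace Pool.Agent.FQThree

/-- In a quadratic field, every element is a rational combination of `1` and an irrational `V`. -/
lemma exists_lin {K : Type*} [Field K] [NumberField K] (hK : Module.finrank ℚ K = 2)
    (V : K) (hV : ∀ r : ℚ, V ≠ (r : K)) (U : K) :
    ∃ p q : ℚ, U = (p : K) + (q : K) * V := by
  have hli : LinearIndependent ℚ ![(1 : K), V] := by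
    rw [LinearIndependent.pair_iff]
    intro a b hab
    rw [Rat.smul_def, Rat.smul_def, mul_one] at hab
    by_cases hb : b = 0
    · subst hb
      simp only [Rat.cast_zero, zero_mul, add_zero, Rat.cast_eq_zero] at hab
      exact ⟨hab, rfl⟩
    · exfalso
      apply hV (-a / b)
      have hb' : (b : K) ≠ 0 := by exact_mod_cast hb
      push_cast
      field_simp
      linear_combination hab
  have htop : Submodule.span ℚ (Set.range ![(1 : K), V]) = ⊤ :=
    hli.span_eq_top_of_card_eq_finrank' (by simp [hK])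
  have hU : U ∈ Submodule.span ℚ (Set.range ![(1 : K), V]) := by
    rw [htop]; trivial
  rw [Submodule.mem_span_range_iff_exists_fun] at hU
  obtain ⟨c, hc⟩ := hU
  refine ⟨c 0, c 1, ?_⟩
  rw [← hc]
  simp [Fin.sum_univ_two, Rat.smul_def]

lemma lin_indep {K : Type*} [Field K] [NumberField K]
    (V : K) (hV : ∀ r : ℚ, V ≠ (r : K)) (a b : ℚ) (h : (a : K) + (b : K) * V = 0) :
    a = 0 ∧ b = 0 := by
  by_cases hb : b = 0
  · subst hb
    simp only [Rat.cast_zero, zero_mul, add_zero, Rat.cast_eq_zero] at h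
    exact ⟨h, rfl⟩
  · exfalso
    apply hV (-a / b)
    have hb' : (b : K) ≠ 0 := by exact_mod_cast hb
    push_cast
    field_simp
    linear_combination h

/-- FLT for exponent three, over `ℚ`, in symmetric form. -/
lemma flt3_rat (a b c : ℚ) (h : a ^ 3 + b ^ 3 + c ^ 3 = 0) : a = 0 ∨ b = 0 ∨ c = 0 := by
  by_contra hcon
  push Not at hcon
  obtain ⟨ha, hb, hc⟩ := hcon
  have := fermatLastTheoremFor_iff_rat.mp fermatLastTheoremThree a b (-c) ha hb (by simpa using hc)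
  apply this
  linear_combination h

lemma third_point_aux {K : Type*} [Field K] [NumberField K] (hK : Module.finrank ℚ K = 2)
    (U V : K) (hU : U ≠ 0) (hV : ∀ r : ℚ, V ≠ (r : K))
    (h : U ^ 3 + V ^ 3 + 1 = 0) :
    (∃ t : ℚ, U + V = t) ∨ (∃ t : ℚ, V + 1 = t * U) ∨ (∃ t : ℚ, 1 + U = t * V) := by
  obtain ⟨p, q, hpq⟩ := exists_lin hK V hV U
  obtain ⟨n, s, hns⟩ := exists_lin hK V hV (V ^ 2)
  -- V ^ 2 = n + s V
  have hV3 : V ^ 3 = (n * s : K) + (s ^ 2 + n) * V := by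
    linear_combination (V + s) * hns
  have key : (((p ^ 3 + 1 + 3 * p * q ^ 2 * n + (q ^ 3 + 1) * (n * s) : ℚ)) : K) +
      ((3 * p ^ 2 * q + 3 * p * q ^ 2 * s + (q ^ 3 + 1) * (s ^ 2 + n) : ℚ) : K) * V = 0 := by
    push_cast
    rw [hpq] at h
    linear_combination h - (3 * p * q ^ 2) * hns - ((q : K) ^ 3 + 1) * hV3
  obtain ⟨E0, E1⟩ := lin_indep V hV _ _ key
  by_cases hq : q ^ 3 + 1 = 0
  · left
    have hq1 : q = -1 := by
      have : (q + 1) * ((q - 1 / 2) ^ 2 + 3 / 4) = 0 := by linear_combination hq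
      rcases mul_eq_zero.mp this with h1 | h1
      · linarith
      · nlinarith [sq_nonneg (q - 1 / 2)]
    refine ⟨p, ?_⟩
    rw [hpq, hq1]
    push_cast
    ring
  · set r : ℚ := -3 * p * q ^ 2 / (q ^ 3 + 1) - s with hr
    have hrs : (q ^ 3 + 1) * (r + s) = -3 * p * q ^ 2 := by
      rw [hr]; field_simp; ring
    have hF : (p + q * r) ^ 3 + r ^ 3 + 1 ^ 3 = 0 := by
      have h1 : (q ^ 3 + 1) * (r * s - n) = 3 * p ^ 2 * q := by
        linear_combination s * hrs - E1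
      have h2 : (q ^ 3 + 1) * (n * r) = p ^ 3 + 1 := by
        linear_combination n * hrs - E0
      have h3 : (p + q * r) ^ 3 + r ^ 3 + 1 ^ 3 =
          (q ^ 3 + 1) * r ^ 3 + 3 * p * q ^ 2 * r ^ 2 + 3 * p ^ 2 * q * r + (p ^ 3 + 1) := by ring
      clear_value r
      rw [h3]
      linear_combination r ^ 2 * hrs - r * h1 - h2
    rcases flt3_rat _ _ _ hF with h0 | h0 | h0
    · -- p + q r = 0
      right; left
      have hr3 : r ^ 3 + 1 = 0 := by rw [h0] at hF; linarith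
      have hr1 : r = -1 := by
        have : (r + 1) * ((r - 1 / 2) ^ 2 + 3 / 4) = 0 := by linear_combination hr3
        rcases mul_eq_zero.mp this with h1 | h1
        · linarith
        · nlinarith [sq_nonneg (r - 1 / 2)]
      have hp : p = q := by rw [hr1] at h0; linarith
      have hq0 : q ≠ 0 := by
        intro hq0
        apply hU
        rw [hpq, hp, hq0]
        simp
      refine ⟨q⁻¹, ?_⟩
      have hq0' : (q : K) ≠ 0 := by exact_mod_cast hq0
      rw [hpq, hp]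
      push_cast
      field_simp
      ring
    · -- r = 0
      right; right
      have hp3 : p ^ 3 + 1 = 0 := by rw [h0] at hF; linarith
      have hp1 : p = -1 := by
        have : (p + 1) * ((p - 1 / 2) ^ 2 + 3 / 4) = 0 := by linear_combination hp3
        rcases mul_eq_zero.mp this with h1 | h1
        · linarith
        · nlinarith [sq_nonneg (p - 1 / 2)]
      refine ⟨q, ?_⟩
      rw [hpq, hp1]
      push_cast
      ring
    · norm_num at h0

/-- A quadratic point on the cubic `X ^ 3 + Y ^ 3 + Z ^ 3 = 0` with `X Y Z ≠ 0` lies on a line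
through one of the three rational points. -/
lemma third_point {K : Type*} [Field K] [NumberField K] (hK : Module.finrank ℚ K = 2)
    (X Y Z : K) (hX : X ≠ 0) (hY : Y ≠ 0) (hZ : Z ≠ 0)
    (h : X ^ 3 + Y ^ 3 + Z ^ 3 = 0) :
    (∃ t : ℚ, X + Y = t * Z) ∨ (∃ t : ℚ, Y + Z = t * X) ∨ (∃ t : ℚ, Z + X = t * Y) := by
  have h1 : (X / Z) ^ 3 + (Y / Z) ^ 3 + 1 = 0 := by
    field_simp
    linear_combination h
  have hU : X / Z ≠ 0 := div_ne_zero hX hZ
  have hV : Y / Z ≠ 0 := div_ne_zero hY hZ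
  by_cases hVr : ∀ r : ℚ, Y / Z ≠ (r : K)
  · rcases third_point_aux hK (X / Z) (Y / Z) hU hVr h1 with ⟨t, ht⟩ | ⟨t, ht⟩ | ⟨t, ht⟩
    · left
      refine ⟨t, ?_⟩
      field_simp at ht
      linear_combination ht
    · right; left
      refine ⟨t, ?_⟩
      field_simp at ht
      linear_combination ht
    · right; right
      refine ⟨t, ?_⟩
      field_simp at ht
      linear_combination ht
  by_cases hUr : ∀ r : ℚ, X / Z ≠ (r : K)
  · have h1' : (Y / Z) ^ 3 + (X / Z) ^ 3 + 1 = 0 := by linear_combination h1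
    rcases third_point_aux hK (Y / Z) (X / Z) hV hUr h1' with ⟨t, ht⟩ | ⟨t, ht⟩ | ⟨t, ht⟩
    · left
      refine ⟨t, ?_⟩
      field_simp at ht
      linear_combination ht
    · right; right
      refine ⟨t, ?_⟩
      field_simp at ht
      linear_combination ht
    · right; left
      refine ⟨t, ?_⟩
      field_simp at ht
      linear_combination ht
  exfalso
  push Not at hVr hUr
  obtain ⟨v, hv⟩ := hVr
  obtain ⟨u, hu⟩ := hUr
  rw [hv, hu] at h1
  have h2 : u ^ 3 + v ^ 3 + 1 ^ 3 = 0 := by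
    have : ((u ^ 3 + v ^ 3 + 1 ^ 3 : ℚ) : K) = ((0 : ℚ) : K) := by
      push_cast; rw [one_pow]; exact h1
    exact_mod_cast this
  rcases flt3_rat _ _ _ h2 with h0 | h0 | h0
  · apply hU; rw [hu, h0]; simp
  · apply hV; rw [hv, h0]; simp
  · norm_num at h0

/-- If `c ^ 2` is an `m`-th power of a rational with `m` odd, so is `c`. -/
lemma exists_pow_of_sq {m : ℕ} (hm : Odd m) (c N : ℚ) (hc : c ≠ 0) (h : c ^ 2 = N ^ m) :
    ∃ s : ℚ, s ≠ 0 ∧ s ^ m = c := by
  obtain ⟨k, hk⟩ := hm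
  have hN : N ≠ 0 := by
    intro hN
    rw [hN, hk, zero_pow (by omega)] at h
    exact hc (pow_eq_zero_iff (by norm_num) |>.mp h)
  refine ⟨c / N ^ k, div_ne_zero hc (pow_ne_zero _ hN), ?_⟩
  rw [div_pow, ← pow_mul, mul_comm k m, pow_mul, ← h, ← pow_mul, hk]
  rw [pow_succ]
  field_simp

/-- Exponent `3 m` reduces to a rational equation. -/
lemma rational_eq {K : Type*} [Field K] [NumberField K] (hK : Module.finrank ℚ K = 2)
    {m : ℕ} (hm : Odd m) (x y z : K) (hx : x ≠ 0) (hy : y ≠ 0) (hz : z ≠ 0)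
    (h : x ^ (3 * m) + y ^ (3 * m) + z ^ (3 * m) = 0) (t : ℚ)
    (ht : x ^ m + y ^ m = t * z ^ m) :
    t ≠ 0 ∧ (∃ s : ℚ, s ≠ 0 ∧ 3 * t * s ^ m = t ^ 3 + 1) ∧
      ∃ δ : K, 3 * (t : K) * δ ^ 2 = - (t ^ 3 + 4) := by
  have hzm : z ^ m ≠ 0 := pow_ne_zero _ hz
  have h3 : (x ^ m) ^ 3 + (y ^ m) ^ 3 + (z ^ m) ^ 3 = 0 := by
    rw [← pow_mul, ← pow_mul, ← pow_mul, mul_comm m 3]; exact h
  have hid : 3 * (t : K) * ((x ^ m) * (y ^ m)) = (t ^ 3 + 1) * (z ^ m) ^ 2 := by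
    have : (3 * (t : K) * ((x ^ m) * (y ^ m)) - (t ^ 3 + 1) * (z ^ m) ^ 2) * z ^ m = 0 := by
      linear_combination (-(t : K) ^ 2 * (z ^ m) ^ 2 - (t : K) * z ^ m * (x ^ m + y ^ m)
        - (x ^ m + y ^ m) ^ 2 + 3 * (x ^ m * y ^ m)) * (-1 : K) * ht * 1
        - h3 + 0 * h3
    rcases mul_eq_zero.mp this with h | h
    · linear_combination h
    · exact absurd h hzm
  have ht0 : t ≠ 0 := by
    intro h0
    rw [h0] at hid
    simp only [Rat.cast_zero, mul_zero, zero_mul, ne_eq, OfNat.ofNat_ne_zero, not_false_eq_true,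
      zero_pow, zero_add, one_mul] at hid
    exact hzm (pow_eq_zero_iff (by norm_num) |>.mp hid.symm)
  have ht0' : (t : K) ≠ 0 := by exact_mod_cast ht0
  refine ⟨ht0, ?_, ?_⟩
  · set c : ℚ := (t ^ 3 + 1) / (3 * t) with hc
    have hcK : ((c : ℚ) : K) = (x * y / z ^ 2) ^ m := by
      rw [hc]
      push_cast
      rw [div_pow, mul_pow]
      have : (z ^ 2) ^ m = (z ^ m) ^ 2 := by rw [← pow_mul, ← pow_mul, mul_comm]
      rw [this]
      field_simp
      linear_combination -hid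
    have hc0 : c ≠ 0 := by
      intro h0
      have h1 : (x * y / z ^ 2) ^ m ≠ 0 :=
        pow_ne_zero _ (div_ne_zero (mul_ne_zero hx hy) (pow_ne_zero _ hz))
      apply h1
      rw [← hcK, h0]; simp
    have hnorm : c ^ 2 = (Algebra.norm ℚ (x * y / z ^ 2)) ^ m := by
      rw [← map_pow, ← hcK]
      have := Algebra.norm_algebraMap (R := ℚ) (S := K) c
      rw [hK] at this
      rw [← this]
      rfl
    obtain ⟨s, hs0, hs⟩ := exists_pow_of_sq hm c _ hc0 hnorm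
    refine ⟨s, hs0, ?_⟩
    rw [hs, hc]
    field_simp
  · refine ⟨(x ^ m - y ^ m) / z ^ m, ?_⟩
    field_simp
    have e1 : (x ^ m - y ^ m) ^ 2 = (x ^ m + y ^ m) ^ 2 - 4 * (x ^ m * y ^ m) := by ring
    have e2 : 3 * (t : K) * (x ^ m - y ^ m) ^ 2 =
        3 * t * (t * z ^ m) ^ 2 - 4 * ((t ^ 3 + 1) * (z ^ m) ^ 2) := by
      rw [e1, ht, ← hid]; ring
    linear_combination e2

/-- Splitting coprime integer equations with odd powers. -/
lemma split_pow {m : ℕ} (hm : Odd m) (P G c d : ℤ) (hPG : IsCoprime P G) (hcd : IsCoprime c d)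
    (hd : d ≠ 0) (h : P * c ^ m = G * d ^ m) :
    ∃ C D : ℤ, P = D ^ m ∧ G = C ^ m := by
  have h1 : P ∣ d ^ m := hPG.dvd_of_dvd_mul_left (Dvd.intro _ h)
  have h2 : d ^ m ∣ P :=
    (IsCoprime.pow hcd.symm : IsCoprime (d ^ m) (c ^ m)).dvd_of_dvd_mul_right
      (Dvd.intro_left _ h.symm)
  have hdm : d ^ m ≠ 0 := pow_ne_zero _ hd
  rcases Int.associated_iff.mp (associated_of_dvd_dvd h1 h2) with h3 | h3
  · refine ⟨c, d, h3, ?_⟩
    rw [h3] at h
    apply mul_right_cancel₀ hdm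
    linear_combination -h
  · refine ⟨-c, -d, ?_, ?_⟩
    · rw [hm.neg_pow]; exact h3
    · rw [hm.neg_pow]
      rw [h3] at h
      apply mul_right_cancel₀ hdm
      linear_combination -h

lemma eq_pow_of_sq {m : ℕ} (hm : Odd m) (b β : ℤ) (h : b ^ 2 = β ^ m) : ∃ b1 : ℤ, b = b1 ^ m := by
  have h1 : b.natAbs ^ 2 = β.natAbs ^ m := by
    rw [← Int.natAbs_pow, ← Int.natAbs_pow, h]
  obtain ⟨c, hc, -⟩ := Nat.exists_eq_pow_of_exponent_coprime_of_pow_eq_pow
    (Nat.coprime_two_left.mpr hm) h1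
  rcases Int.natAbs_eq b with hb | hb
  · exact ⟨c, by rw [hb, hc]; push_cast; rfl⟩
  · exact ⟨-c, by rw [hb, hc, hm.neg_pow]; push_cast; rfl⟩

lemma not_three_dvd_cubes (a b : ℤ) (h : ¬ (3 : ℤ) ∣ a + b) : ¬ (3 : ℤ) ∣ a ^ 3 + b ^ 3 := by
  intro h3
  have h4 : a ^ 3 + b ^ 3 = (a + b) * (a ^ 2 - a * b + b ^ 2) := by ring
  rw [h4] at h3
  rcases Int.prime_three.dvd_or_dvd h3 with h5 | h5
  · exact h h5
  · have h6 : (3 : ℤ) ∣ (a + b) ^ 2 := by
      have h7 : (a + b) ^ 2 = (a ^ 2 - a * b + b ^ 2) + 3 * (a * b) := by ring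
      rw [h7]
      exact dvd_add h5 (Dvd.intro _ rfl)
    exact h (Int.prime_three.dvd_of_dvd_pow h6)

/-- The integer part of the reduction. -/
lemma int_part {m : ℕ} (hm : Odd m) (hm1 : 1 < m) (a b c d : ℤ) (hab : IsCoprime a b)
    (hcd : IsCoprime c d) (ha : a ≠ 0) (hb : b ≠ 0) (hc : c ≠ 0) (hd : d ≠ 0)
    (h : 3 * a * b ^ 2 * c ^ m = (a ^ 3 + b ^ 3) * d ^ m) :
    (∃ A B C : ℤ, A * B * C ≠ 0 ∧ A ^ m + B ^ m = C ^ m) ∨
      (3 ∣ b ∧ ∃ A B C : ℤ, A * B * C ≠ 0 ∧ A ^ m + B ^ m = 3 ^ ((m - 1) / 2) * C ^ m) := by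
  have hm0 : m ≠ 0 := by omega
  have hs : a ^ 3 + b ^ 3 ≠ 0 := by
    intro h0
    rw [h0, zero_mul] at h
    have : 3 * a * b ^ 2 * c ^ m ≠ 0 :=
      mul_ne_zero (mul_ne_zero (mul_ne_zero (by norm_num) ha) (pow_ne_zero _ hb))
        (pow_ne_zero _ hc)
    exact this h
  have hfac : a ^ 3 + b ^ 3 = (a + b) * (a ^ 2 - a * b + b ^ 2) := by ring
  have hs1 : a + b ≠ 0 := by
    intro h0; apply hs; rw [hfac, h0, zero_mul]
  have hs2 : a ^ 2 - a * b + b ^ 2 ≠ 0 := by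
    intro h0; apply hs; rw [hfac, h0, mul_zero]
  have hcop_a : IsCoprime a (a ^ 3 + b ^ 3) := by
    have h1 : IsCoprime a (b ^ 3) := hab.pow_right
    have h2 := h1.add_mul_left_right (a ^ 2)
    have h3 : b ^ 3 + a * a ^ 2 = a ^ 3 + b ^ 3 := by ring
    rwa [h3] at h2
  have hcop_b : IsCoprime b (a ^ 3 + b ^ 3) := by
    have h1 : IsCoprime b (a ^ 3) := hab.symm.pow_right
    have h2 := h1.add_mul_left_right (b ^ 2)
    have h3 : a ^ 3 + b * b ^ 2 = a ^ 3 + b ^ 3 := by ring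
    rwa [h3] at h2
  have hcop_ab : IsCoprime (a * b ^ 2) (a ^ 3 + b ^ 3) := hcop_a.mul_left hcop_b.pow_left
  have hsum_a : IsCoprime (a + b) a := by
    have h1 : IsCoprime a (b + a * 1) := hab.add_mul_left_right 1
    have h2 : b + a * 1 = a + b := by ring
    rw [h2] at h1; exact h1.symm
  have hsum_b : IsCoprime (a + b) b := by
    have h1 : IsCoprime b (a + b * 1) := hab.symm.add_mul_left_right 1
    have h2 : a + b * 1 = a + b := by ring
    rw [h2] at h1; exact h1.symm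
  by_cases h3s : (3 : ℤ) ∣ a + b
  · -- first case
    left
    obtain ⟨e', he'⟩ := h3s
    set G : ℤ := e' * (a ^ 2 - a * b + b ^ 2) with hG
    have hG3 : a ^ 3 + b ^ 3 = 3 * G := by rw [hfac, he', hG]; ring
    have hcop : IsCoprime (a * b ^ 2) G :=
      hcop_ab.of_isCoprime_of_dvd_right (Dvd.intro_left 3 hG3.symm)
    have heq : (a * b ^ 2) * c ^ m = G * d ^ m := by
      have : (3 : ℤ) * ((a * b ^ 2) * c ^ m) = 3 * (G * d ^ m) := by
        rw [hG3] at h; linear_combination h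
      exact mul_left_cancel₀ (by norm_num) this
    obtain ⟨C, D, hD, hC⟩ := split_pow hm _ _ _ _ hcop hcd hd heq
    obtain ⟨⟨a1, ha1⟩, ⟨β, hβ⟩⟩ := Int.eq_pow_of_mul_eq_pow_odd (hab.pow_right (n := 2)) hm hD
    obtain ⟨b1, hb1⟩ := eq_pow_of_sq hm b β hβ
    -- factor G
    have hG' : (a + b) * (3 * e' ^ 2 - a * b) = G := by
      have h4 : 3 * (3 * e' ^ 2 - a * b) = a ^ 2 - a * b + b ^ 2 := by
        have h5 : (a + b) ^ 2 = (3 * e') ^ 2 := by rw [he']
        linear_combination -h5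
      rw [hG, ← h4, he']; ring
    have hcop2 : IsCoprime (a + b) (3 * e' ^ 2 - a * b) := by
      have h5 : IsCoprime (a + b) (-(a * b)) := (hsum_a.mul_right hsum_b).neg_right
      have h6 := h5.add_mul_left_right e'
      have h7 : -(a * b) + (a + b) * e' = 3 * e' ^ 2 - a * b := by rw [he']; ring
      rwa [h7] at h6
    obtain ⟨e, he⟩ := Int.eq_pow_of_mul_eq_pow_odd_left hcop2 hm (hG'.trans hC)
    refine ⟨a1, b1, e, ?_, ?_⟩
    · refine mul_ne_zero (mul_ne_zero ?_ ?_) ?_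
      · rintro rfl; rw [zero_pow hm0] at ha1; exact ha ha1
      · rintro rfl; rw [zero_pow hm0] at hb1; exact hb hb1
      · rintro rfl; rw [zero_pow hm0] at he; exact hs1 he
    · rw [← ha1, ← hb1, ← he]
  · have hcop3 : IsCoprime (3 : ℤ) (a ^ 3 + b ^ 3) :=
      (Prime.coprime_iff_not_dvd Int.prime_three).mpr (not_three_dvd_cubes a b h3s)
    have hcop : IsCoprime (3 * a * b ^ 2) (a ^ 3 + b ^ 3) := by
      rw [mul_assoc]; exact hcop3.mul_left hcop_ab
    obtain ⟨C, D, hD, hC⟩ := split_pow hm _ _ _ _ hcop hcd hd h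
    have hcop3s : IsCoprime (a + b) (3 : ℤ) :=
      ((Prime.coprime_iff_not_dvd Int.prime_three).mpr h3s).symm
    have hcop2 : IsCoprime (a + b) (a ^ 2 - a * b + b ^ 2) := by
      have h5 : IsCoprime (a + b) (-(3 * (a * b))) :=
        (hcop3s.mul_right (hsum_a.mul_right hsum_b)).neg_right
      have h6 := h5.add_mul_left_right (a + b)
      have h7 : -(3 * (a * b)) + (a + b) * (a + b) = a ^ 2 - a * b + b ^ 2 := by ring
      rwa [h7] at h6
    obtain ⟨⟨e, he⟩, ⟨f, hf⟩⟩ := Int.eq_pow_of_mul_eq_pow_odd hcop2 hm (hfac.symm.trans hC)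
    have he0 : e ≠ 0 := by rintro rfl; rw [zero_pow hm0] at he; exact hs1 he
    have hf0 : f ≠ 0 := by rintro rfl; rw [zero_pow hm0] at hf; exact hs2 hf
    by_cases h3a : (3 : ℤ) ∣ a
    · left
      have h3b : IsCoprime (3 : ℤ) b := hab.of_isCoprime_of_dvd_left h3a
      have hcop4 : IsCoprime (3 * a) (b ^ 2) := (h3b.mul_left hab).pow_right
      obtain ⟨⟨g, hg⟩, ⟨β, hβ⟩⟩ := Int.eq_pow_of_mul_eq_pow_odd hcop4 hm hD
      obtain ⟨b1, hb1⟩ := eq_pow_of_sq hm b β hβ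
      refine ⟨g * b1, f, e ^ 2, ?_, ?_⟩
      · refine mul_ne_zero (mul_ne_zero (mul_ne_zero ?_ ?_) hf0) (pow_ne_zero _ he0)
        · rintro rfl
          rw [zero_pow hm0] at hg
          exact mul_ne_zero (by norm_num) ha hg
        · rintro rfl; rw [zero_pow hm0] at hb1; exact hb hb1
      · rw [mul_pow, ← hg, ← hb1, ← hf, ← pow_mul, mul_comm 2 m, pow_mul, ← he]
        ring
    by_cases h3b : (3 : ℤ) ∣ b
    · right
      refine ⟨h3b, ?_⟩
      have h3a' : IsCoprime (3 : ℤ) a := (hab.symm.of_isCoprime_of_dvd_left h3b)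
      have hcop4 : IsCoprime a (3 * b ^ 2) := h3a'.symm.mul_right (hab.pow_right (n := 2))
      have hD' : a * (3 * b ^ 2) = D ^ m := by rw [← hD]; ring
      obtain ⟨⟨a1, ha1⟩, ⟨g, hg⟩⟩ := Int.eq_pow_of_mul_eq_pow_odd hcop4 hm hD'
      have h3g : (3 : ℤ) ∣ g := Int.prime_three.dvd_of_dvd_pow (Dvd.intro _ hg)
      obtain ⟨g', rfl⟩ := h3g
      obtain ⟨k, hk⟩ := hm
      have hb2 : b ^ 2 = (3 ^ k) ^ 2 * g' ^ m := by
        have h8 : (3 : ℤ) * b ^ 2 = 3 * ((3 ^ k) ^ 2 * g' ^ m) := by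
          rw [hg, mul_pow, ← pow_mul, ← mul_assoc, ← pow_succ', mul_comm k 2, ← hk]
        exact mul_left_cancel₀ (by norm_num) h8
      have h3k : (3 : ℤ) ^ k ∣ b := by
        have : ((3 : ℤ) ^ k) ^ 2 ∣ b ^ 2 := Dvd.intro _ hb2.symm
        exact (Int.pow_dvd_pow_iff (by norm_num)).mp this
      obtain ⟨b', hb'⟩ := h3k
      have hb'2 : b' ^ 2 = g' ^ m := by
        rw [hb', mul_pow] at hb2
        exact mul_left_cancel₀ (pow_ne_zero _ (pow_ne_zero _ (by norm_num))) hb2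
      obtain ⟨b1, hb1⟩ := eq_pow_of_sq ⟨k, hk⟩ b' g' hb'2
      refine ⟨e, -a1, b1, ?_, ?_⟩
      · refine mul_ne_zero (mul_ne_zero he0 ?_) ?_
        · rw [neg_ne_zero]; rintro rfl; rw [zero_pow hm0] at ha1; exact ha ha1
        · rintro rfl
          rw [zero_pow hm0] at hb1
          apply hb; rw [hb', hb1, mul_zero]
      · have hk2 : (m - 1) / 2 = k := by omega
        have hodd : Odd m := ⟨k, hk⟩
        rw [hk2, hodd.neg_pow, ← he, ← ha1, ← hb1, ← hb']
        ring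
    · exfalso
      have h3D : (3 : ℤ) ∣ D := by
        apply Int.prime_three.dvd_of_dvd_pow (n := m)
        rw [← hD]
        exact ⟨a * b ^ 2, by ring⟩
      have h9 : (3 : ℤ) * 3 ∣ 3 * (a * b ^ 2) := by
        have h10 : (3 : ℤ) * 3 ∣ D ^ m := by
          have h11 : (3 : ℤ) ^ 2 ∣ D ^ m :=
            (pow_dvd_pow_of_dvd h3D 2).trans (pow_dvd_pow D (by omega))
          rwa [pow_two] at h11
        rw [← hD] at h10
        rwa [← mul_assoc]
      have h12 : (3 : ℤ) ∣ a * b ^ 2 := (mul_dvd_mul_iff_left (by norm_num)).mp h9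
      rcases Int.prime_three.dvd_or_dvd h12 with h13 | h13
      · exact h3a h13
      · exact h3b (Int.prime_three.dvd_of_dvd_pow h13)

/-- One of the three symmetric cases. -/
lemma one_case {K : Type*} [Field K] [NumberField K] (hK : Module.finrank ℚ K = 2)
    {m : ℕ} (hm : Odd m) (hm1 : 1 < m) (x y z : K) (hx : x ≠ 0) (hy : y ≠ 0) (hz : z ≠ 0)
    (h : x ^ (3 * m) + y ^ (3 * m) + z ^ (3 * m) = 0) (t : ℚ)
    (ht : x ^ m + y ^ m = t * z ^ m) :
    (∃ A B C : ℤ, A * B * C ≠ 0 ∧ A ^ m + B ^ m = C ^ m) ∨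
      ((∃ A B C : ℤ, A * B * C ≠ 0 ∧ A ^ m + B ^ m = 3 ^ ((m - 1) / 2) * C ^ m) ∧
        ∃ k : ℤ, k % 3 = 1 ∧ ∃ δ : K, δ ^ 2 = ((-3 * k : ℤ) : K)) := by
  obtain ⟨ht0, ⟨s, hs0, hs⟩, δ, hδ⟩ := rational_eq hK hm x y z hx hy hz h t ht
  have htd : (t.den : ℚ) ≠ 0 := by exact_mod_cast t.den_ne_zero
  have hsd : (s.den : ℚ) ≠ 0 := by exact_mod_cast s.den_ne_zero
  have htq : t = t.num / t.den := (Rat.num_div_den t).symm
  have hsq : s = s.num / s.den := (Rat.num_div_den s).symm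
  have hab : IsCoprime t.num (t.den : ℤ) := Rat.isCoprime_num_den t
  have hcd : IsCoprime s.num (s.den : ℤ) := Rat.isCoprime_num_den s
  have ha : t.num ≠ 0 := Rat.num_ne_zero.mpr ht0
  have hc : s.num ≠ 0 := Rat.num_ne_zero.mpr hs0
  have hb : (t.den : ℤ) ≠ 0 := by exact_mod_cast t.den_ne_zero
  have hd : (s.den : ℤ) ≠ 0 := by exact_mod_cast s.den_ne_zero
  have hint : 3 * t.num * (t.den : ℤ) ^ 2 * s.num ^ m =
      (t.num ^ 3 + (t.den : ℤ) ^ 3) * (s.den : ℤ) ^ m := by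
    have hq : (3 * t.num * (t.den : ℚ) ^ 2 * s.num ^ m : ℚ) =
        (t.num ^ 3 + (t.den : ℚ) ^ 3) * (s.den : ℚ) ^ m := by
      rw [htq, hsq] at hs
      rw [div_pow] at hs
      field_simp at hs
      linear_combination hs
    exact_mod_cast hq
  rcases int_part hm hm1 _ _ _ _ hab hcd ha hb hc hd hint with h1 | ⟨h3, h1⟩
  · left; exact h1
  · right
    refine ⟨h1, t.num ^ 4 + 4 * t.num * (t.den : ℤ) ^ 3, ?_, 3 * t.num * t.den * δ, ?_⟩
    · have h3a : ¬ (3 : ℤ) ∣ t.num := by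
        intro h3a
        have := hab.isUnit_of_dvd' h3a h3
        rw [Int.isUnit_iff] at this
        omega
      obtain ⟨b', hb'⟩ := h3
      rw [hb']
      have h4 : t.num % 3 = 1 ∨ t.num % 3 = 2 := by omega
      have h5 : t.num ^ 4 % 3 = 1 := by
        rcases h4 with h4 | h4 <;> simp [pow_succ, Int.mul_emod, h4]
      have h6 : t.num ^ 4 + 4 * t.num * (3 * b') ^ 3 =
          t.num ^ 4 + 3 * (36 * t.num * b' ^ 3) := by ring
      rw [h6]
      omega
    · have hbK : ((t.den : ℕ) : K) ≠ 0 := by exact_mod_cast t.den_ne_zero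
      have htK : (t : K) = (t.num : K) / (t.den : K) := by
        conv_lhs => rw [htq]
        push_cast; rfl
      rw [htK] at hδ
      have hδ' : 3 * (t.num : K) * (t.den : K) ^ 2 * δ ^ 2 =
          - ((t.num : K) ^ 3 + 4 * (t.den : K) ^ 3) := by
        field_simp at hδ
        linear_combination hδ
      push_cast
      linear_combination 3 * (t.num : K) * hδ'

/-- The main reduction, in the original (non-symmetric) form. -/
theorem main {K : Type*} [Field K] [NumberField K] (hK : Module.finrank ℚ K = 2)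
    {m : ℕ} (hm : Odd m) (hm1 : 1 < m) (x y z : K) (hxyz : x * y * z ≠ 0)
    (h : x ^ (3 * m) + y ^ (3 * m) = z ^ (3 * m)) :
    (∃ A B C : ℤ, A * B * C ≠ 0 ∧ A ^ m + B ^ m = C ^ m) ∨
      ((∃ A B C : ℤ, A * B * C ≠ 0 ∧ A ^ m + B ^ m = 3 ^ ((m - 1) / 2) * C ^ m) ∧
        ∃ k : ℤ, k % 3 = 1 ∧ ∃ δ : K, δ ^ 2 = ((-3 * k : ℤ) : K)) := by
  have hz : z ≠ 0 := right_ne_zero_of_mul hxyz
  have hxy : x * y ≠ 0 := left_ne_zero_of_mul hxyz
  have hx : x ≠ 0 := left_ne_zero_of_mul hxy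
  have hy : y ≠ 0 := right_ne_zero_of_mul hxy
  have hw : -z ≠ 0 := neg_ne_zero.mpr hz
  have h3m : Odd (3 * m) := (by decide : Odd 3).mul hm
  have h' : x ^ (3 * m) + y ^ (3 * m) + (-z) ^ (3 * m) = 0 := by
    rw [h3m.neg_pow, h]; ring
  have h3 : (x ^ m) ^ 3 + (y ^ m) ^ 3 + ((-z) ^ m) ^ 3 = 0 := by
    rw [← pow_mul, ← pow_mul, ← pow_mul, mul_comm m 3]; exact h'
  rcases third_point hK _ _ _ (pow_ne_zero m hx) (pow_ne_zero m hy) (pow_ne_zero m hw) h3 with
    ⟨t, ht⟩ | ⟨t, ht⟩ | ⟨t, ht⟩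
  · exact one_case hK hm hm1 x y (-z) hx hy hw h' t ht
  · exact one_case hK hm hm1 y (-z) x hy hw hx (by linear_combination h') t ht
  · exact one_case hK hm hm1 (-z) x y hw hx hy (by linear_combination h') t ht

end Pool.Agent.FQThree
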